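import Mathlib
import Pool.Agent.H798.BV.Stm5

set_option autoImplicit false

/-!
# MP_172a45_an: (G2), Gaussian representation of the Mills type function
-/

namespace Pool.Agent.H597.BV

open Pool.Agent.H798.BV MeasureTheory ProbabilityTheory Set

/-- the standard Gaussian law -/
noncomputable abbrev gam : Measure ℝ := gaussianReal 0 1

theorem gauss_char (x : ℝ) : ∫ τ : ℝ, Complex.exp (-((x : ℂ) * (Complex.I * τ))) ∂gam =
    Complex.exp (-((x : ℂ) ^ 2 / 2)) := by
  have h := charFun_gaussianReal (μ := 0) (v := 1) (-x)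
  rw [charFun_apply_real] at h
  have e1 : ∀ τ : ℝ, Complex.exp (-((x : ℂ) * (Complex.I * τ))) =
      Complex.exp (((-x : ℝ) : ℂ) * τ * Complex.I) := by
    intro τ
    congr 1
    push_cast
    ring
  simp_rw [e1]
  rw [h]
  congr 1
  push_cast
  simp

theorem fub (s : ℂ) (f : ℝ → ℂ) (hf : Continuous f)
    (hi : IntegrableOn (fun x : ℝ => f x * Complex.exp (-((x : ℂ) * s))) (Ioi 0)) :
    ∫ x in Ioi (0:ℝ), f x * Complex.exp (-((x : ℂ) * s) - (x : ℂ) ^ 2 / 2) =
      ∫ τ : ℝ, (∫ x in Ioi (0:ℝ), f x * Complex.exp (-((x : ℂ) * (s + Complex.I * τ)))) ∂gam := by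
  have e1 : ∀ x : ℝ, f x * Complex.exp (-((x : ℂ) * s) - (x : ℂ) ^ 2 / 2) =
      ∫ τ : ℝ, f x * Complex.exp (-((x : ℂ) * (s + Complex.I * τ))) ∂gam := by
    intro x
    have e2 : ∀ τ : ℝ, f x * Complex.exp (-((x : ℂ) * (s + Complex.I * τ))) =
        (f x * Complex.exp (-((x : ℂ) * s))) * Complex.exp (-((x : ℂ) * (Complex.I * τ))) := by
      intro τ
      rw [mul_assoc, ← Complex.exp_add]
      congr 2
      ring
    simp_rw [e2]
    rw [integral_const_mul, gauss_char, mul_assoc, ← Complex.exp_add]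
    congr 2
  simp_rw [e1]
  rw [integral_integral_swap]
  have h1 : Integrable (fun p : ℝ × ℝ => (f p.1 * Complex.exp (-((p.1 : ℂ) * s))) * (1 : ℂ))
      ((volume.restrict (Ioi (0:ℝ))).prod gam) :=
    Integrable.mul_prod hi (integrable_const (1 : ℂ))
  refine Integrable.mono h1 ?_ ?_
  · apply Continuous.aestronglyMeasurable
    unfold Function.uncurry
    have hc : Continuous fun a : ℝ × ℝ => f a.1 := hf.comp continuous_fst
    fun_prop
  · refine Filter.Eventually.of_forall fun p => ?_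
    simp only [Function.uncurry, mul_one, norm_mul, Complex.norm_exp]
    apply le_of_eq
    congr 2
    simp

theorem k1 (a : ℂ) (ha : 0 < a.re) : ∫ x in Ioi (0:ℝ), Complex.exp (-((x : ℂ) * a)) = 1 / a := by
  have h := integral_exp_mul_complex_Ioi (a := -a) (by simpa using ha) 0
  have e1 : ∀ x : ℝ, Complex.exp (-((x : ℂ) * a)) = Complex.exp (-a * x) := by
    intro x
    congr 1
    ring
  simp_rw [e1]
  rw [h]
  simp

theorem i1 (a : ℂ) (ha : 0 < a.re) :
    IntegrableOn (fun x : ℝ => Complex.exp (-((x : ℂ) * a))) (Ioi 0) := by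
  have h := integrableOn_exp_mul_complex_Ioi (a := -a) (by simpa using ha) 0
  refine h.congr_fun (fun x _ => ?_) measurableSet_Ioi
  simp only
  congr 1
  ring

theorem i2 (a : ℂ) (ha : 0 < a.re) :
    IntegrableOn (fun x : ℝ => (-(x : ℂ)) * Complex.exp (-((x : ℂ) * a))) (Ioi 0) := by
  have h := integrableOn_rpow_mul_exp_neg_mul_rpow (p := 1) (s := 1) (b := a.re) (by norm_num)
    one_pos ha
  refine Integrable.mono h ?_ ?_
  · apply Continuous.aestronglyMeasurable
    fun_prop
  · refine (ae_restrict_iff' measurableSet_Ioi).mpr (Filter.Eventually.of_forall fun x hx => ?_)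
    have hx0 : (0:ℝ) < x := hx
    simp only [norm_mul, Complex.norm_exp, norm_neg, Real.rpow_one, Real.norm_eq_abs, Real.abs_exp,
      Complex.norm_real]
    apply le_of_eq
    congr 2
    simp
    ring

theorem k2 (a : ℂ) (ha : 0 < a.re) :
    ∫ x in Ioi (0:ℝ), (-(x : ℂ)) * Complex.exp (-((x : ℂ) * a)) = -(1 / a ^ 2) := by
  have ha0 : a ≠ 0 := by
    rintro rfl
    simp at ha
  have hd : ∀ x ∈ Ici (0:ℝ), HasDerivAt (fun x : ℝ => ((x : ℂ) / a + 1 / a ^ 2) *
      Complex.exp (-((x : ℂ) * a))) ((-(x : ℂ)) * Complex.exp (-((x : ℂ) * a))) x := by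
    intro x _
    have h1 : HasDerivAt (fun x : ℝ => (x : ℂ)) 1 x := Complex.ofRealCLM.hasDerivAt
    have h2 : HasDerivAt (fun x : ℝ => (x : ℂ) / a + 1 / a ^ 2) (1 / a) x :=
      (h1.div_const a).add_const _
    have h3 : HasDerivAt (fun x : ℝ => Complex.exp (-((x : ℂ) * a)))
        (Complex.exp (-((x : ℂ) * a)) * (-(1 * a))) x := ((h1.mul_const a).neg).cexp
    have h4 := h2.mul h3
    refine h4.congr_deriv ?_
    field_simp
    ring
  have ht : Filter.Tendsto (fun x : ℝ => ((x : ℂ) / a + 1 / a ^ 2) * Complex.exp (-((x : ℂ) * a)))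
      Filter.atTop (nhds 0) := by
    rw [tendsto_zero_iff_norm_tendsto_zero]
    have h1 : Filter.Tendsto (fun x : ℝ => (x ^ 1 * Real.exp (-a.re * x)) * ‖1 / a‖ +
        (x ^ 0 * Real.exp (-a.re * x)) * ‖1 / a ^ 2‖) Filter.atTop (nhds (0 * ‖1 / a‖ + 0 * ‖1 / a ^ 2‖)) := by
      refine Filter.Tendsto.add ?_ ?_
      · refine Filter.Tendsto.mul_const _ ?_
        have h2 := tendsto_rpow_mul_exp_neg_mul_atTop_nhds_zero 1 a.re ha
        simpa using h2
      · refine Filter.Tendsto.mul_const _ ?_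
        have h2 := tendsto_rpow_mul_exp_neg_mul_atTop_nhds_zero 0 a.re ha
        simpa using h2
    rw [zero_mul, zero_mul, add_zero] at h1
    refine squeeze_zero' (Filter.Eventually.of_forall fun x => norm_nonneg _) ?_ h1
    filter_upwards [Filter.eventually_gt_atTop 0] with x hx
    rw [norm_mul, Complex.norm_exp]
    have e1 : (-((x : ℂ) * a)).re = -a.re * x := by simp; ring
    rw [e1]
    have h3 : ‖(x : ℂ) / a + 1 / a ^ 2‖ ≤ x * ‖1 / a‖ + ‖1 / a ^ 2‖ := by
      refine (norm_add_le _ _).trans ?_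
      have : ‖(x : ℂ) / a‖ = x * ‖1 / a‖ := by
        rw [div_eq_mul_one_div, norm_mul, Complex.norm_real, Real.norm_eq_abs, abs_of_pos hx]
      rw [this]
    calc ‖(x : ℂ) / a + 1 / a ^ 2‖ * Real.exp (-a.re * x)
        ≤ (x * ‖1 / a‖ + ‖1 / a ^ 2‖) * Real.exp (-a.re * x) :=
          mul_le_mul_of_nonneg_right h3 (Real.exp_pos _).le
      _ = _ := by ring
  have h := integral_Ioi_of_hasDerivAt_of_tendsto' hd (i2 a ha) ht
  rw [h]
  simp

theorem sq_int_le (X : ℝ → ℝ) (h1 : Integrable X gam) (h2 : Integrable (fun τ => X τ ^ 2) gam) :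
    (∫ τ, X τ ∂gam) ^ 2 ≤ ∫ τ, X τ ^ 2 ∂gam := by
  set c := ∫ τ, X τ ∂gam with hc
  have h3 : 0 ≤ ∫ τ, (X τ - c) ^ 2 ∂gam := integral_nonneg fun τ => sq_nonneg _
  have e1 : ∀ τ, (X τ - c) ^ 2 = X τ ^ 2 - 2 * c * X τ + c ^ 2 := fun τ => by ring
  simp_rw [e1] at h3
  have h4 : Integrable (fun τ => X τ ^ 2 - 2 * c * X τ) gam := h2.sub (h1.const_mul _)
  rw [integral_add h4 (integrable_const _),
    integral_sub h2 (h1.const_mul _), integral_const_mul, integral_const] at h3
  simp only [probReal_univ, smul_eq_mul, one_mul] at h3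
  rw [← hc] at h3
  nlinarith

theorem t_G2 : S_G2 := by
  intro s hs
  have hK : ∀ τ : ℝ, 0 < (s + Complex.I * τ).re := by
    intro τ
    simpa using hs
  have hK0 : ∀ τ : ℝ, s + Complex.I * τ ≠ 0 := by
    intro τ h
    have := hK τ
    rw [h] at this
    simp at this
  have hKn : ∀ τ : ℝ, s.re ≤ ‖s + Complex.I * τ‖ := by
    intro τ
    have h1 := Complex.re_le_norm (s + Complex.I * τ)
    simpa using h1
  have hcont : Continuous fun τ : ℝ => s + Complex.I * τ := by fun_prop
  have hcn : Continuous fun τ : ℝ => 1 / ‖s + Complex.I * τ‖ := by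
    refine continuous_const.div hcont.norm fun τ => ?_
    exact (norm_pos_iff.mpr (hK0 τ)).ne'
  have hcc : Continuous fun τ : ℝ => 1 / (s + Complex.I * τ) :=
    continuous_const.div hcont hK0
  have hb : ∀ τ : ℝ, 1 / ‖s + Complex.I * τ‖ ≤ 1 / s.re := fun τ =>
    one_div_le_one_div_of_le hs (hKn τ)
  have hint1 : Integrable (fun τ : ℝ => 1 / ‖s + Complex.I * τ‖) gam := by
    refine Integrable.of_bound hcn.aestronglyMeasurable (1 / s.re)
      (Filter.Eventually.of_forall fun τ => ?_)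
    rw [Real.norm_eq_abs, abs_of_nonneg (by positivity)]
    exact hb τ
  have hint2 : Integrable (fun τ : ℝ => (1 / ‖s + Complex.I * τ‖) ^ 2) gam := by
    refine Integrable.of_bound (hcn.pow 2).aestronglyMeasurable ((1 / s.re) ^ 2)
      (Filter.Eventually.of_forall fun τ => ?_)
    rw [Real.norm_eq_abs, abs_of_nonneg (by positivity)]
    have h0 : 0 ≤ 1 / ‖s + Complex.I * τ‖ := by positivity
    exact pow_le_pow_left₀ h0 (hb τ) 2
  have hint3 : Integrable (fun τ : ℝ => 1 / (s + Complex.I * τ)) gam := by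
    refine Integrable.of_bound hcc.aestronglyMeasurable (1 / s.re)
      (Filter.Eventually.of_forall fun τ => ?_)
    rw [norm_div, norm_one]
    exact hb τ
  have g1 : gG s = ∫ τ : ℝ, 1 / (s + Complex.I * τ) ∂gam := by
    have h := fub s (fun _ => 1) continuous_const (by simpa using i1 s hs)
    simp only [one_mul] at h
    unfold gG
    rw [h]
    refine integral_congr_ae (Filter.Eventually.of_forall fun τ => ?_)
    exact k1 _ (hK τ)
  have g2 : ∫ x in Set.Ioi (0:ℝ), (-(x : ℂ)) * Complex.exp (-((x : ℂ) * s) - (x : ℂ) ^ 2 / 2) =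
      ∫ τ : ℝ, -(1 / (s + Complex.I * τ) ^ 2) ∂gam := by
    have h := fub s (fun x => -(x : ℂ)) (by fun_prop) (i2 s hs)
    rw [h]
    refine integral_congr_ae (Filter.Eventually.of_forall fun τ => ?_)
    exact k2 _ (hK τ)
  refine ⟨∫ τ : ℝ, (1 / ‖s + Complex.I * τ‖) ^ 2 ∂gam, ?_, ?_, ?_, ?_⟩
  · rw [integral_pos_iff_support_of_nonneg (fun τ => by positivity) hint2]
    have : Function.support (fun τ : ℝ => (1 / ‖s + Complex.I * τ‖) ^ 2) = univ := by
      ext τ
      simp only [Function.mem_support, mem_univ, iff_true]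
      have := norm_pos_iff.mpr (hK0 τ)
      positivity
    rw [this, measure_univ]
    exact one_pos
  · rw [g1]
    have h1 : (∫ τ : ℝ, 1 / (s + Complex.I * τ) ∂gam).re = ∫ τ : ℝ, (1 / (s + Complex.I * τ)).re ∂gam := by
      have := integral_re hint3
      exact this.symm
    rw [h1, ← integral_const_mul]
    refine integral_congr_ae (Filter.Eventually.of_forall fun τ => ?_)
    simp only
    rw [one_div, Complex.inv_re, Complex.normSq_eq_norm_sq]
    simp
    ring
  · rw [g1]
    have h1 : ‖∫ τ : ℝ, 1 / (s + Complex.I * τ) ∂gam‖ ≤ ∫ τ : ℝ, 1 / ‖s + Complex.I * τ‖ ∂gam := by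
      refine (norm_integral_le_integral_norm _).trans (le_of_eq ?_)
      refine integral_congr_ae (Filter.Eventually.of_forall fun τ => ?_)
      simp only [norm_div, norm_one]
    exact (pow_le_pow_left₀ (norm_nonneg _) h1 2).trans (sq_int_le _ hint1 hint2)
  · rw [g2]
    refine (norm_integral_le_integral_norm _).trans (le_of_eq ?_)
    refine integral_congr_ae (Filter.Eventually.of_forall fun τ => ?_)
    simp only [norm_neg, one_div, inv_pow, norm_inv, norm_pow]

end Pool.Agent.H597.BV
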